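import Pool.Agent.helper52.WP.SpecC

set_option autoImplicit false

open Complex Metric Set Filter Topology MeasureTheory
open V3S (UF)
open WP

noncomputable section

namespace WPC

theorem CB2 (hCB1 : CB1_stmt) (hKO0 : V3.KO0_stmt) (hKO1 : V3.KO1_stmt) (hKO3 : V3.KO3_stmt) :
    CB2_stmt := by
  intro C hC
  obtain ⟨C1, hC1, H1⟩ := hKO1
  obtain ⟨C3, hC3, H3⟩ := hKO3 (1 / 2) (by norm_num) (by norm_num)
  have hC0 : (0 : ℝ) < C := by linarith
  have hC10 : (0 : ℝ) < C1 := by linarith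
  have hC30 : (0 : ℝ) < C3 := by linarith
  have hK0 : (0 : ℝ) < 2 * C3 := by linarith
  have hden : (0 : ℝ) < 2 * C * (2 * C3) * C1 := by positivity
  refine ⟨1 / (2 * C * (2 * C3) * C1), by positivity, 2 * C3, by linarith, ?_⟩
  intro n A D hG
  obtain ⟨-, -, -, -, hF0, hF, hFd, -, -, -, -, -⟩ := hCB1 D hG.rho
  -- sizes
  have h2C : 1 / (2 * C) ≤ (1 / 2 : ℝ) := by
    rw [div_le_div_iff₀ (by positivity) (by norm_num)]; linarith
  have h4C : 1 / (4 * C) < 1 / (2 * C) := by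
    rw [div_lt_div_iff₀ (by positivity) (by positivity)]; linarith
  have hsum : 1 / (2 * C) + 1 / (2 * C) = 1 / C := by
    field_simp; norm_num
  have h1C : 1 / C ≤ 1 := by
    rw [div_le_one hC0]; exact hC
  have h16 : 1 / (16 * C) < 1 / (2 * C) := by
    rw [div_lt_div_iff₀ (by positivity) (by positivity)]; linarith
  have h416 : 1 / (4 * C) + 1 / (16 * C) < 1 / (2 * C) := by
    have : 1 / (4 * C) + 1 / (16 * C) = (5 / 16) * (1 / C) := by field_simp; norm_num
    have h' : 1 / (2 * C) = (1 / 2) * (1 / C) := by field_simp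
    rw [this, h']
    have : 0 < 1 / C := by positivity
    nlinarith
  have hsub1 : ball (0 : ℂ) (1 / (2 * C)) ⊆ ball (0 : ℂ) 1 := ball_subset_ball (by linarith)
  -- (1)
  have c1 : ∀ j ≤ D.k, InjOn (D.F j) (ball 0 1) := by
    intro j hj x hx y hy hxy
    apply hG.inj hx hy
    have e : D.k = (D.k - j) + j := by omega
    rw [e, hF, hF, hxy]
  have c2 : ∀ j ≤ D.k, ∀ x ∈ ball (0 : ℂ) 1, deriv (D.F j) x ≠ 0 := fun j hj x hx =>
    hKO0 (D.F j) (ball 0 1) isOpen_ball (hFd j).differentiableOn (c1 j hj) x hx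
  have c3 : ∀ j ≤ D.k, ∀ x ∈ ball (0 : ℂ) (1 / 2), 1 / (2 * C3) ≤ ‖deriv (D.F j) x‖ := by
    intro j hj x hx
    obtain ⟨-, h⟩ := H3 (D.F j) 0 1 one_pos (hFd j).differentiableOn (c1 j hj)
    obtain ⟨-, h2, -, -⟩ := h x (by
      have : (1 - 1 / 2 : ℝ) * 1 = 1 / 2 := by norm_num
      rw [this]; exact hx)
    have hb := hG.big j hj
    rw [div_le_iff₀ hK0]
    nlinarith
  have near : ∀ x ∈ ball (0 : ℂ) 1, ‖D.F D.k x‖ ≤ ‖x‖ + 1 / (16 * C) := by
    intro x hx
    have h := hG.near x hx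
    have h' := hG.om1
    have : D.F D.k x = x + (D.F D.k x - x) := by ring
    rw [this]
    exact (norm_add_le _ _).trans (by linarith)
  have c4 : ∀ x ∈ ball (0 : ℂ) (1 / (2 * C)), D.F D.k x ∈ ball (0 : ℂ) (1 / C) := by
    intro x hx
    have h := near x (hsub1 hx)
    rw [mem_ball_zero_iff] at hx ⊢
    linarith
  have ha : ∀ i, D.a i ∈ ball (0 : ℂ) (1 / (2 * C)) := by
    intro i
    rw [mem_ball_zero_iff]
    exact (hG.pt i).trans_lt h4C
  have hFa : ∀ i, D.F D.k (D.a i) ∈ ball (0 : ℂ) (1 / (2 * C)) := by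
    intro i
    have h := near _ (hsub1 (ha i))
    have h' := hG.pt i
    rw [mem_ball_zero_iff]
    linarith
  have c5 : ∀ i : Fin 3, ∀ j ≤ D.k, ‖D.g i j‖ ≤ 2 * C3 := by
    intro i j hj
    have h := c3 j hj (D.a i) (ball_subset_ball h2C (ha i))
    have hpos : 0 < ‖deriv (D.F j) (D.a i)‖ := lt_of_lt_of_le (by positivity) h
    have : D.g i j = D.γ i / deriv (D.F j) (D.a i) := rfl
    rw [this, norm_div, div_le_iff₀ hpos]
    have hg := hG.gam i
    rw [div_le_iff₀ hK0] at h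
    linarith
  have c6 : ∀ j < D.k, ∀ l < D.k, j ≠ l → ∀ x ∈ ball (0 : ℂ) (1 / (2 * C)),
      ∀ x' ∈ ball (0 : ℂ) (1 / (2 * C)), 1 / (2 * C * (2 * C3) * C1) ≤ ‖D.F j x - D.F l x'‖ := by
    intro j hj l hl hjl x hx x' hx'
    have hsub : ball x (1 / (2 * C)) ⊆ ball (0 : ℂ) (1 / C) := by
      intro y hy
      rw [mem_ball_zero_iff] at hx ⊢
      rw [mem_ball, dist_eq_norm] at hy
      have : y = (y - x) + x := by ring
      rw [this]
      exact (norm_add_le _ _).trans_lt (by linarith)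
    have hinj : InjOn (D.F j) (ball x (1 / (2 * C))) :=
      (c1 j hj.le).mono (hsub.trans (ball_subset_ball h1C))
    have hk := H1 (D.F j) x (1 / (2 * C)) (by positivity) (hFd j).differentiableOn hinj
    by_contra hlt
    push Not at hlt
    have hd3 := c3 j hj.le x (ball_subset_ball h2C hx)
    have hle : 1 / (2 * C * (2 * C3) * C1) ≤ 1 / (2 * C) * ‖deriv (D.F j) x‖ / C1 := by
      have e : 1 / (2 * C * (2 * C3) * C1) = 1 / (2 * C) * (1 / (2 * C3)) / C1 := by
        field_simp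
      rw [e]
      apply div_le_div_of_nonneg_right _ hC10.le
      exact mul_le_mul_of_nonneg_left hd3 (by positivity)
    have hmem : D.F l x' ∈ ball (D.F j x) (1 / (2 * C) * ‖deriv (D.F j) x‖ / C1) := by
      rw [mem_ball, dist_eq_norm, norm_sub_rev]
      exact lt_of_lt_of_le hlt hle
    have h1 : D.F l x' ∈ D.F j '' ball 0 (1 / C) := image_mono hsub (hk hmem)
    have h2 : D.F l x' ∈ D.F l '' ball 0 (1 / C) :=
      mem_image_of_mem _ (ball_subset_ball (by rw [← hsum]; linarith [show 0 < 1 / (2 * C) by positivity]) hx')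
    exact (Set.disjoint_left.1 (hG.dj j hj l hl hjl)) h1 h2
  refine ⟨c1, c2, c3, c4, c5, c6, ?_, ?_, hFa⟩
  · intro i j hj l hl hjl
    refine ⟨c6 j hj l hl hjl _ (ha i) _ (ha i), ?_⟩
    have e1 : D.p i (j + D.k) = D.F j (D.F D.k (D.a i)) := hF _ _ _
    have e2 : D.p i (l + D.k) = D.F l (D.F D.k (D.a i)) := hF _ _ _
    rw [e1, e2]
    exact c6 j hj l hl hjl _ (hFa i) _ (hFa i)
  · intro j hj1 hj x hx
    by_contra hlt
    push Not at hlt
    have h1 : D.F j x ∈ D.F j '' ball 0 (1 / C) := mem_image_of_mem _ hx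
    have h2 : D.F j x ∈ D.F 0 '' ball 0 (1 / C) :=
      ⟨D.F j x, by rw [mem_ball_zero_iff]; exact hlt, hF0 _⟩
    exact (Set.disjoint_left.1 (hG.dj j hj 0 (by omega) (by omega))) h1 h2

end WPC
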