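import Pool.Agent.helper52.WP.SpecN

set_option autoImplicit false

open Complex Metric Set Filter Topology MeasureTheory
open V3S (UF)
open WP

noncomputable section

namespace WPN

theorem NLI (hNBD : NBD_stmt) (hPIN : WPL.PIN_stmt) (hTMO : V3.TMO_stmt) : NLI_stmt := by
  intro n C D hC hS
  obtain ⟨-, hcl, -, -, -, -⟩ := hPIN n C D hC hS
  have hO : IsOpen (Pin D)ᶜ := hcl.isOpen_compl
  obtain ⟨F, hFd, hFc⟩ := hTMO (hyperfilter ℕ) (fun m => (D m).B) (Pin D)ᶜ hO
    (fun x hx => hNBD n C D hC hS x hx)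
  have hBin : ∀ x ∈ (Pin D)ᶜ, Bin D x = F x := by
    intro x hx
    have h1 : Tendsto (fun m => (D m).B x) UF (𝓝 (F x)) := hFc.tendsto_at hx
    have hne : NeBot UF := inferInstanceAs (NeBot ((hyperfilter ℕ : Ultrafilter ℕ) : Filter ℕ))
    exact h1.limUnder_eq
  refine ⟨hFd.congr hBin, fun K hK hKc => ?_⟩
  have h2 : TendstoUniformlyOn (fun m => (D m).B) F UF K :=
    (tendstoLocallyUniformlyOn_iff_forall_isCompact hO).1 hFc K hKc hK
  exact h2.congr_right (fun x hx => (hBin x (hKc hx)).symm)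

end WPN
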