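import Pool.Agent.helper52.WP.SpecN

set_option autoImplicit false

open Complex Metric Set Filter Topology MeasureTheory
open V3S (UF)
open WP

noncomputable section

namespace WPN

theorem NZA (hNLI : NLI_stmt) (hPIN : WPL.PIN_stmt) (hAFX : WPC.AFX_stmt)
    (hTUL : V3.TUL_stmt) : NZA_stmt := by
  intro n C D hC hS hs0
  have hne : NeBot UF := inferInstanceAs (NeBot ((hyperfilter ℕ : Ultrafilter ℕ) : Filter ℕ))
  obtain ⟨A, -, hgood⟩ := hS.good
  obtain ⟨hP1, -, -, -, -, -⟩ := hPIN n C D hC hS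
  obtain ⟨-, hconv⟩ := hNLI n C D hC hS
  have hpos : ∀ m, 0 < 1 + ‖(D m).ca‖ + ‖(D m).cb‖ := fun m => by positivity
  have hnca : ∀ m, ‖((D m).s : ℂ) * (D m).ca‖ = ‖(D m).ca‖ / (1 + ‖(D m).ca‖ + ‖(D m).cb‖) := by
    intro m
    rw [norm_mul, hS.s m, Complex.norm_real, Real.norm_eq_abs, abs_of_pos (inv_pos.2 (hpos m)),
      mul_comm, div_eq_mul_inv]
  have hncb : ∀ m, ‖((D m).s : ℂ) * (D m).cb‖ = ‖(D m).cb‖ / (1 + ‖(D m).ca‖ + ‖(D m).cb‖) := by
    intro m
    rw [norm_mul, hS.s m, Complex.norm_real, Real.norm_eq_abs, abs_of_pos (inv_pos.2 (hpos m)),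
      mul_comm, div_eq_mul_inv]
  obtain ⟨α, -, hα⟩ := hTUL (hyperfilter ℕ) (fun m => ((D m).s : ℂ) * (D m).ca) 1
    (Eventually.of_forall fun m => by
      rw [hnca m, div_le_one (hpos m)]
      linarith [norm_nonneg (D m).ca, norm_nonneg (D m).cb])
  obtain ⟨β, -, hβ⟩ := hTUL (hyperfilter ℕ) (fun m => ((D m).s : ℂ) * (D m).cb) 1
    (Eventually.of_forall fun m => by
      rw [hncb m, div_le_one (hpos m)]
      linarith [norm_nonneg (D m).ca, norm_nonneg (D m).cb])
  have hα' : Tendsto (fun m => ((D m).s : ℂ) * (D m).ca) UF (𝓝 α) := hα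
  have hβ' : Tendsto (fun m => ((D m).s : ℂ) * (D m).cb) UF (𝓝 β) := hβ
  have hsum : ∀ m, ‖((D m).s : ℂ) * (D m).ca‖ + ‖((D m).s : ℂ) * (D m).cb‖ = 1 - (D m).s := by
    intro m
    have h := (hpos m).ne'
    rw [hnca m, hncb m, hS.s m]
    field_simp
    ring
  have hlim1 : Tendsto (fun m => ‖((D m).s : ℂ) * (D m).ca‖ + ‖((D m).s : ℂ) * (D m).cb‖) UF
      (𝓝 (‖α‖ + ‖β‖)) := hα'.norm.add hβ'.norm
  have hlim2 : Tendsto (fun m => ‖((D m).s : ℂ) * (D m).ca‖ + ‖((D m).s : ℂ) * (D m).cb‖) UF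
      (𝓝 (1 - 0)) := by
    refine Tendsto.congr (fun m => (hsum m).symm) ?_
    exact tendsto_const_nhds.sub hs0
  have hone : ‖α‖ + ‖β‖ = 1 := by
    have := tendsto_nhds_unique hlim1 hlim2
    linarith
  refine ⟨α, β, ?_, ?_⟩
  · by_contra hcon
    push Not at hcon
    rw [hcon.1, hcon.2, norm_zero] at hone
    norm_num at hone
  · intro x hx
    obtain ⟨r, hr, hev⟩ := hP1 x hx
    obtain ⟨K, hK, hAF⟩ := hAFX C (‖x‖ + 1) hC (by linarith [norm_nonneg x])
    have hδ : 0 < min r 1 := lt_min hr one_pos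
    have h1 : Tendsto (fun m => (D m).B x) UF (𝓝 (Bin D x)) :=
      (hconv {x} isCompact_singleton (singleton_subset_iff.2 hx)).tendsto_at (mem_singleton x)
    have h2 : Tendsto (fun m => ((D m).s : ℂ) * (D m).ca + ((D m).s : ℂ) * (D m).cb * x) UF
        (𝓝 (α + β * x)) := hα'.add (hβ'.mul_const x)
    have hbd : ∀ᶠ m in UF, ‖(D m).B x - (((D m).s : ℂ) * (D m).ca + ((D m).s : ℂ) * (D m).cb * x)‖
        ≤ (D m).s * (K / min r 1) := by
      filter_upwards [hev] with m hm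
      have hg := hgood m
      have h3 := hAF n (A m) (D m) hg (min r 1) hδ (min_le_right _ _) x
        (by rw [mem_closedBall_zero_iff]; linarith)
        (fun i j hj => by
          rw [norm_sub_rev]
          exact (min_le_left _ _).trans (hm _ ⟨i, j, by omega, rfl⟩))
      have e : (D m).B x - (((D m).s : ℂ) * (D m).ca + ((D m).s : ℂ) * (D m).cb * x)
          = ((D m).s : ℂ) * ((D m).B0 x - (D m).ca - (D m).cb * x) := by
        show ((D m).s : ℂ) * (D m).B0 x - _ = _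
        ring
      rw [e, norm_mul, Complex.norm_real, Real.norm_eq_abs, abs_of_pos hg.s0]
      exact mul_le_mul_of_nonneg_left h3 hg.s0.le
    have hz : Tendsto (fun m => (D m).B x - (((D m).s : ℂ) * (D m).ca + ((D m).s : ℂ) * (D m).cb * x))
        UF (𝓝 0) := by
      rw [tendsto_zero_iff_norm_tendsto_zero]
      have h0 : Tendsto (fun m => (D m).s * (K / min r 1)) UF (𝓝 0) := by
        have := hs0.mul_const (K / min r 1)
        rwa [zero_mul] at this
      exact tendsto_of_tendsto_of_tendsto_of_le_of_le' tendsto_const_nhds h0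
        (Eventually.of_forall fun m => norm_nonneg _) hbd
    have h4 : Tendsto (fun m => (D m).B x) UF (𝓝 (0 + (α + β * x))) := by
      refine Tendsto.congr (fun m => ?_) (hz.add h2)
      ring
    rw [zero_add] at h4
    exact tendsto_nhds_unique h1 h4

end WPN
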